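import Pool.Agent.W744.BU.Stm

set_option autoImplicit false

open Set Filter Topology

namespace Pool.Agent.W730.BU.TAU

open Pool.Agent.W744.BU

theorem main (h1 : S_SCHUR) (h2 : S_BR) (h3 : S_QBQ) (h4 : S_EST) : S_TAU := by
  intro B C _ _ f x y Q hf hx hy hpow hQQ hQs hQy t ht0 ht1
  rcases le_total t (1 / 2) with ht | ht
  · have hr : rr t = 49 / 50 := by
      unfold rr
      rw [min_eq_left (by linarith)]
      norm_num
    have hq0 : 0 ≤ qq t := le_max_left _ _
    have hq1 : qq t ≤ 1 := max_le (by norm_num) (by linarith)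
    rw [hr]
    set q : ℝ := qq t with hqdef
    obtain ⟨hbu, -, hrel⟩ := h2 B x hx (49 / 50) (by norm_num) (by norm_num)
    have hrel' := hrel q hq0 hq1
    have hyC : f y ∈ unitary C := by
      rw [Unitary.mem_iff] at hy ⊢
      refine ⟨?_, ?_⟩
      · rw [← map_star, ← map_mul, hy.1, map_one]
      · rw [← map_star, ← map_mul, hy.2, map_one]
    have hbC : f (bF (49 / 50) x) ∈ unitary C := by
      rw [Unitary.mem_iff] at hbu ⊢
      refine ⟨?_, ?_⟩
      · rw [← map_star, ← map_mul, hbu.1, map_one]
      · rw [← map_star, ← map_mul, hbu.2, map_one]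
    have hQb : Q * f (bF (49 / 50) x) * Q = (((49 / 50 : ℝ)) : ℂ) • Q :=
      h3 B C f x Q hx hpow hQQ (49 / 50) (by norm_num) (by norm_num)
    have hA : f (AF q (49 / 50) x) =
        ((Real.sqrt (q * (1 - q)) : ℝ) : ℂ) • ((1 : C) - f (bF (49 / 50) x)) := by
      unfold AF
      rw [map_smul, map_sub, map_one]
    have hB : f (BF q (49 / 50) x) =
        (q : ℂ) • (1 : C) + ((1 - q : ℝ) : ℂ) • f (bF (49 / 50) x) := by
      unfold BF
      rw [map_add, map_smul, map_smul, map_one]
    have hc : f ((((q + (1 - q) * (49 / 50))⁻¹ : ℝ) : ℂ) • AF q (49 / 50) x) =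
        (((q + (1 - q) * (49 / 50))⁻¹ : ℝ) : ℂ) • f (AF q (49 / 50) x) := by
      rw [map_smul]
    have hest := h4 C (f (bF (49 / 50) x)) (f y) Q hbC hyC hQQ hQs hQb hQy q hq0 hq1
      (f (AF q (49 / 50) x)) (f (BF q (49 / 50) x))
      (f ((((q + (1 - q) * (49 / 50))⁻¹ : ℝ) : ℂ) • AF q (49 / 50) x)) hA hB hc
    set A : B := AF q (49 / 50) x with hAdef
    set D : B := BF q (49 / 50) x with hDdef
    set c : B := (((q + (1 - q) * (49 / 50))⁻¹ : ℝ) : ℂ) • A with hcdef
    have hT : f (star A * (y - 1) * A + star A * (y - 1) * star D * star y * c) =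
        star (f A) * (f y - 1) * f A + star (f A) * (f y - 1) * star (f D) * star (f y) * f c := by
      simp only [map_add, map_mul, map_sub, map_one, map_star]
    have hlt : ‖star A * (y - 1) * A + star A * (y - 1) * star D * star y * c‖ < 1 := by
      rw [← hf, hT]
      exact hest
    have hunit : IsUnit (1 + (star A * (y - 1) * A + star A * (y - 1) * star D * star y * c)) := by
      have h5 := isUnit_one_sub_of_norm_lt_one
        (x := -(star A * (y - 1) * A + star A * (y - 1) * star D * star y * c))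
        (by rw [norm_neg]; exact hlt)
      rwa [sub_neg_eq_add] at h5
    exact h1 B A D c y hy hrel' hunit
  · have hq : qq t = 0 := by
      unfold qq
      exact max_eq_left (by linarith)
    have hr0 : 0 ≤ rr t := by
      unfold rr
      have : 0 ≤ min (1 : ℝ) (2 * (1 - t)) := le_min (by norm_num) (by linarith)
      positivity
    have hr1 : rr t < 1 := by
      unfold rr
      have : min (1 : ℝ) (2 * (1 - t)) ≤ 1 := min_le_left _ _
      linarith
    rw [hq]
    obtain ⟨-, -, hrel⟩ := h2 B x hx (rr t) hr0 hr1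
    have hrel' := hrel 0 le_rfl zero_le_one
    have hA0 : AF 0 (rr t) x = 0 := by
      unfold AF
      simp
    refine h1 B _ _ _ y hy hrel' ?_
    rw [hA0]
    simp

end Pool.Agent.W730.BU.TAU
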